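import Mathlib
import Pool.Agent.H1.RepDeg

set_option autoImplicit false

namespace Pool.Agent.Results.MP_6c10c0_co.Example

/-- The Ramsey repeated degree property. A red/blue colouring of `K_n` is given by its red graph
`R`; the blue graph is `Rᶜ`; a monochromatic copy of `G` is an injective map sending edges of `G`
to edges of `R`, or to edges of `Rᶜ`. -/
def RepeatedDegree {V : Type} (G : SimpleGraph V) : Prop :=
  ∃ n₀ : ℕ, ∀ n ≥ n₀, ∀ R : SimpleGraph (Fin n), ∃ f : V → Fin n, Function.Injective f ∧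
    ((∀ a b, G.Adj a b → R.Adj (f a) (f b)) ∨ (∀ a b, G.Adj a b → Rᶜ.Adj (f a) (f b))) ∧
    ∃ u v, u ≠ v ∧ (R.neighborSet (f u)).ncard = (R.neighborSet (f v)).ncard

theorem result : ∃ (k : ℕ) (G : SimpleGraph (Fin k)), 2 ≤ k ∧
    (∀ m : ℕ, 4 ≤ m → IsEmpty (G ≃g (⊤ : SimpleGraph (Fin m)))) ∧ ¬ RepeatedDegree G := by
  let G : SimpleGraph (Fin 16) :=
    { Adj := fun a b => a ≠ b ∧ 1 < a.val + b.val
      symm := ⟨fun a b h => ⟨h.1.symm, by omega⟩⟩
      loopless := ⟨fun a h => h.1 rfl⟩ }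
  refine ⟨16, G, by norm_num, fun m _ => ⟨fun e => ?_⟩, ?_⟩
  · have : G.Adj 0 1 := e.map_adj_iff.1 (e.injective.ne (by decide))
    exact absurd this.2 (by decide)
  · rintro ⟨n₀, h⟩
    let e : Fin 12 × Fin n₀ ≃ Fin (12 * n₀) := finProdFinEquiv
    obtain ⟨f, hf, hG, u, v, huv, hd⟩ := h (12 * n₀) (by omega)
      ((Pool.Agent.H1.RepDeg.R n₀).comap e.symm)
    have hn : ∀ x, (((Pool.Agent.H1.RepDeg.R n₀).comap e.symm).neighborSet x).ncard =
        ((Pool.Agent.H1.RepDeg.R n₀).neighborSet (e.symm x)).ncard := fun x =>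
      Set.ncard_preimage_of_injective_subset_range (f := e.symm)
        (s := (Pool.Agent.H1.RepDeg.R n₀).neighborSet (e.symm x)) e.symm.injective (by simp)
    rw [hn, hn] at hd
    obtain ⟨g, hg, hg2⟩ : ∃ g : Fin 13 → Fin 16, Function.Injective g ∧
        ∀ a, G.Adj u (g a) ∧ G.Adj v (g a) ∧ 0 < (g a).val := by
      have : ∀ u v : Fin 16, ∃ s : Finset (Fin 16), 13 ≤ s.card ∧
          ∀ a ∈ s, (u ≠ a ∧ 1 < u.val + a.val) ∧ (v ≠ a ∧ 1 < v.val + a.val) ∧ 0 < a.val := by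
        intro u v
        refine ⟨Finset.univ.filter fun a => (u ≠ a ∧ 1 < u.val + a.val) ∧
          (v ≠ a ∧ 1 < v.val + a.val) ∧ 0 < a.val, ?_, fun a ha => (Finset.mem_filter.1 ha).2⟩
        revert u v
        decide
      obtain ⟨s, hs, h⟩ := this u v
      exact ⟨fun a => s.orderEmbOfCardLe hs a, (s.orderEmbOfCardLe hs).injective,
        fun a => h _ (s.orderEmbOfCardLe_mem hs a)⟩
    have hadj : ∀ a b, a ≠ b → G.Adj (g a) (g b) := fun a b hab => by
      have h1 := (hg2 a).2.2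
      have h2 := (hg2 b).2.2
      exact ⟨hg.ne hab, by omega⟩
    have hne : e.symm (f u) ≠ e.symm (f v) := e.symm.injective.ne (hf.ne huv)
    rcases hG with hG | hG
    · exact Pool.Agent.H1.RepDeg.no_clique hne hd (fun a => e.symm (f (g a))) _ (Or.inl rfl)
        (fun a => hG _ _ (hg2 a).1) (fun a => hG _ _ (hg2 a).2.1) fun a b hab => hG _ _ (hadj a b hab)
    · have hG' : ∀ a b, G.Adj a b →
          (Pool.Agent.H1.RepDeg.R n₀)ᶜ.Adj (e.symm (f a)) (e.symm (f b)) := fun a b hab =>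
        ⟨e.symm.injective.ne (hG a b hab).1, (hG a b hab).2⟩
      exact Pool.Agent.H1.RepDeg.no_clique hne hd (fun a => e.symm (f (g a))) _ (Or.inr rfl)
        (fun a => hG' _ _ (hg2 a).1) (fun a => hG' _ _ (hg2 a).2.1)
        fun a b hab => hG' _ _ (hadj a b hab)

end Pool.Agent.Results.MP_6c10c0_co.Example
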